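import Mathlib

/-!
The partition formed by the summands of an elementary symmetric polynomial
(problem MP_b67aea_co).
-/

namespace Pool.Agent.Lib.MP_b67aea_co

/-- `pre k p` is the multiset of the summands of the elementary symmetric polynomial `e_k`
evaluated at the parts of the partition `p`: the products of the `k`-element subfamilies of the
parts, counted with multiplicity. -/
def pre (k : ℕ) {n : ℕ} (p : n.Partition) : Multiset ℕ :=
  (p.parts.powersetCard k).map Multiset.prod

/-- `PreInjectiveOn k n`: the map `pre k` is injective on the set of those partitions of `n`
that have more than `k` parts. -/
def PreInjectiveOn (k n : ℕ) : Prop :=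
  Set.InjOn (pre k) {p : n.Partition | k < p.parts.card}

end Pool.Agent.Lib.MP_b67aea_co
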