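import Pool.Agent.Lib.MP_b67aea_co.Defs

/-!
Collisions of `pre k` for every `k ≥ 4` and every large `n`.
-/

namespace Pool.Agent.Lib.MP_b67aea_co

/-- Reflection: if `S` has `2k` elements, all of them divisors of `c > 0`, and product `c ^ k`,
then the family `c / S` has the same products of `k` elements. -/
theorem reflect (k c : ℕ) (hc : 0 < c) (S : Multiset ℕ) (hS : S.card = 2 * k)
    (hd : ∀ v ∈ S, v ∣ c) (hP : S.prod = c ^ k) :
    ((S.map (c / ·)).powersetCard k).map Multiset.prod =
      (S.powersetCard k).map Multiset.prod := by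
  obtain ⟨l, rfl⟩ := Quot.exists_rep S
  change Multiset.card (l : Multiset ℕ) = _ at hS
  change (l : Multiset ℕ).prod = _ at hP
  change ∀ v ∈ (l : Multiset ℕ), v ∣ c at hd
  change (((l : Multiset ℕ).map (c / ·)).powersetCard k).map Multiset.prod =
      ((l : Multiset ℕ).powersetCard k).map Multiset.prod
  rw [Multiset.coe_card] at hS
  -- index the elements
  set f : Fin l.length → ℕ := l.get with hf
  have hl : (l : Multiset ℕ) = (Finset.univ : Finset (Fin l.length)).val.map f := by
    rw [hf, Fin.univ_val_map, List.ofFn_get]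
  have hfd : ∀ i, f i ∣ c := fun i => hd _ (by simp [hf])
  have hfpos : ∀ i, 0 < f i := fun i => Nat.pos_of_dvd_of_pos (hfd i) hc
  have hPf : ∏ i, f i = c ^ k := by
    rw [← hP, hl]
    rfl
  have e : ∀ g : Fin l.length → ℕ,
      (((Finset.univ : Finset (Fin l.length)).val.map g).powersetCard k).map Multiset.prod =
      ((Finset.univ : Finset (Fin l.length)).powersetCard k).val.map (fun A => ∏ i ∈ A, g i) := by
    intro g
    rw [Multiset.powersetCard_map, ← Finset.map_val_val_powersetCard, Multiset.map_map,
      Multiset.map_map]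
    rfl
  have hl' : (l : Multiset ℕ).map (c / ·) =
      (Finset.univ : Finset (Fin l.length)).val.map (fun i => c / f i) := by
    rw [hl, Multiset.map_map]
    rfl
  rw [hl', e, hl, e]
  -- complementation
  have hcompl : ((Finset.univ : Finset (Fin l.length)).powersetCard k).val =
      ((Finset.univ : Finset (Fin l.length)).powersetCard k).val.map (fun A => Aᶜ) := by
    have : ((Finset.univ : Finset (Fin l.length)).powersetCard k) =
        ((Finset.univ : Finset (Fin l.length)).powersetCard k).map
          ⟨fun A => Aᶜ, compl_injective⟩ := by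
      ext A
      simp only [Finset.mem_powersetCard, Finset.subset_univ, true_and, Finset.mem_map,
        Function.Embedding.coeFn_mk]
      constructor
      · intro h
        refine ⟨Aᶜ, ?_, compl_compl A⟩
        rw [Finset.card_compl, Fintype.card_fin, h]
        omega
      · rintro ⟨B, hB, rfl⟩
        rw [Finset.card_compl, Fintype.card_fin, hB]
        omega
    conv_lhs => rw [this]
    rfl
  conv_rhs => rw [hcompl, Multiset.map_map]
  refine Multiset.map_congr rfl fun A hA => ?_
  have hA' : A.card = k := by
    have : A ∈ (Finset.univ : Finset (Fin l.length)).powersetCard k := hA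
    exact (Finset.mem_powersetCard.mp this).2
  show ∏ i ∈ A, c / f i = ∏ i ∈ Aᶜ, f i
  have h1 : (∏ i ∈ A, f i) * ∏ i ∈ A, c / f i = c ^ k := by
    rw [← Finset.prod_mul_distrib, Finset.prod_congr rfl fun i _ => Nat.mul_div_cancel' (hfd i),
      Finset.prod_const, hA']
  have h2 : (∏ i ∈ A, f i) * ∏ i ∈ Aᶜ, f i = c ^ k := by
    rw [Finset.prod_mul_prod_compl, hPf]
  have h3 : 0 < ∏ i ∈ A, f i := Finset.prod_pos fun i _ => hfpos i
  exact Nat.eq_of_mul_eq_mul_left h3 (h1.trans h2.symm)

/-- The sum of the squares. -/
def sq (S : Multiset ℕ) : ℕ := (S.map (fun v => v ^ 2)).sum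

/-- The collision built from two families `a`, `b` with the same product, sum and sum of
reciprocals. -/
theorem collision (k T x y : ℕ) (a b : Multiset ℕ) (ha : a.card = k) (hb : b.card = k)
    (hT : 0 < T) (hx : 0 < x) (hy : 0 < y) (hk : 0 < k)
    (hda : ∀ v ∈ a, v ∣ T) (hdb : ∀ v ∈ b, v ∣ T) (hprod : a.prod = b.prod)
    (hsum : a.sum = b.sum) (hrec : (a.map (T / ·)).sum = (b.map (T / ·)).sum)
    (hne : x ^ 2 * sq a + y ^ 2 * sq (b.map (T / ·)) ≠
      x ^ 2 * sq b + y ^ 2 * sq (a.map (T / ·)))
    (n : ℕ) (hn : x * a.sum + y * (a.map (T / ·)).sum = n) :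
    ¬ PreInjectiveOn k n := by
  have hpa : ∀ v ∈ a, 0 < v := fun v hv => Nat.pos_of_dvd_of_pos (hda v hv) hT
  have hpb : ∀ v ∈ b, 0 < v := fun v hv => Nat.pos_of_dvd_of_pos (hdb v hv) hT
  let S : Multiset ℕ := a.map (fun v => x * v) + b.map (fun v => y * (T / v))
  let S' : Multiset ℕ := b.map (fun v => x * v) + a.map (fun v => y * (T / v))
  have hSpos : ∀ v ∈ S, 0 < v := by
    intro v hv
    rcases Multiset.mem_add.mp hv with h | h
    · obtain ⟨w, hw, rfl⟩ := Multiset.mem_map.mp h
      exact Nat.mul_pos hx (hpa w hw)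
    · obtain ⟨w, hw, rfl⟩ := Multiset.mem_map.mp h
      exact Nat.mul_pos hy (Nat.div_pos (Nat.le_of_dvd hT (hdb w hw)) (hpb w hw))
  have hSpos' : ∀ v ∈ S', 0 < v := by
    intro v hv
    rcases Multiset.mem_add.mp hv with h | h
    · obtain ⟨w, hw, rfl⟩ := Multiset.mem_map.mp h
      exact Nat.mul_pos hx (hpb w hw)
    · obtain ⟨w, hw, rfl⟩ := Multiset.mem_map.mp h
      exact Nat.mul_pos hy (Nat.div_pos (Nat.le_of_dvd hT (hda w hw)) (hpa w hw))
  have hsumS : S.sum = n := by
    rw [Multiset.sum_add, Multiset.sum_map_mul_left, Multiset.sum_map_mul_left, Multiset.map_id',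
      ← hrec, hn]
  have hsumS' : S'.sum = n := by
    rw [Multiset.sum_add, Multiset.sum_map_mul_left, Multiset.sum_map_mul_left, Multiset.map_id',
      ← hsum, hn]
  have hcard : S.card = 2 * k := by
    simp only [S, Multiset.card_add, Multiset.card_map, ha, hb]
    omega
  have hcard' : S'.card = 2 * k := by
    simp only [S', Multiset.card_add, Multiset.card_map, ha, hb]
    omega
  have hmap : S.map (x * y * T / ·) = S' := by
    simp only [S, S', Multiset.map_add, Multiset.map_map]
    rw [add_comm]
    congr 1
    · refine Multiset.map_congr rfl fun v hv => ?_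
      obtain ⟨w, hw⟩ := hdb v hv
      have hv0 := hpb v hv
      show x * y * T / (y * (T / v)) = x * v
      have hw0 : 0 < w := by
        rcases Nat.eq_zero_or_pos w with h | h
        · subst h; omega
        · exact h
      rw [hw, Nat.mul_div_cancel_left w hv0]
      have : x * y * (v * w) = (y * w) * (x * v) := by ring
      rw [this, Nat.mul_div_cancel_left _ (Nat.mul_pos hy hw0)]
    · refine Multiset.map_congr rfl fun v hv => ?_
      obtain ⟨w, hw⟩ := hda v hv
      have hv0 := hpa v hv
      show x * y * T / (x * v) = y * (T / v)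
      rw [hw, Nat.mul_div_cancel_left w hv0]
      have : x * y * (v * w) = (x * v) * (y * w) := by ring
      rw [this, Nat.mul_div_cancel_left _ (Nat.mul_pos hx hv0)]
  have hprodS : S.prod = (x * y * T) ^ k := by
    have h1 : (b.map (fun v => y * (T / v))).prod * b.prod = (y * T) ^ k := by
      have : b.prod = (b.map (fun v => v)).prod := by rw [Multiset.map_id']
      rw [this, ← Multiset.prod_map_mul, ← hb]
      rw [Multiset.map_congr rfl fun v hv =>
        show y * (T / v) * v = y * T by rw [mul_assoc, Nat.div_mul_cancel (hdb v hv)]]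
      rw [Multiset.map_const', Multiset.prod_replicate]
    have h2 : (a.map (fun v => x * v)).prod = x ^ k * a.prod := by
      rw [Multiset.prod_map_mul, Multiset.map_const', Multiset.prod_replicate, ha,
        Multiset.map_id']
    rw [Multiset.prod_add, h2, hprod]
    calc x ^ k * b.prod * (b.map (fun v => y * (T / v))).prod
        = x ^ k * ((b.map (fun v => y * (T / v))).prod * b.prod) := by ring
      _ = (x * y * T) ^ k := by rw [h1, ← mul_pow]; ring_nf
  have hdS : ∀ v ∈ S, v ∣ x * y * T := by
    intro v hv
    rcases Multiset.mem_add.mp hv with h | h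
    · obtain ⟨w, hw, rfl⟩ := Multiset.mem_map.mp h
      rw [mul_assoc]
      exact Nat.mul_dvd_mul_left x (Dvd.dvd.mul_left (hda w hw) y)
    · obtain ⟨w, hw, rfl⟩ := Multiset.mem_map.mp h
      rw [mul_comm x y, mul_assoc]
      exact Nat.mul_dvd_mul_left y (Dvd.dvd.mul_left (Nat.div_dvd_of_dvd (hdb w hw)) x)
  let p : n.Partition := ⟨S, fun {v} hv => hSpos v hv, hsumS⟩
  let q : n.Partition := ⟨S', fun {v} hv => hSpos' v hv, hsumS'⟩
  intro hinj
  have hpq : p = q := by
    apply hinj
    · show k < S.card
      omega
    · show k < S'.card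
      omega
    · show (S.powersetCard k).map Multiset.prod = (S'.powersetCard k).map Multiset.prod
      rw [← hmap, reflect k (x * y * T) (by positivity) S hcard hdS hprodS]
  have hSS : S = S' := congrArg Nat.Partition.parts hpq
  apply hne
  have h2 := congrArg sq hSS
  have h3 : ∀ (c : ℕ) (A : Multiset ℕ), sq (A.map (fun v => c * v)) = c ^ 2 * sq A := by
    intro c A
    unfold sq
    rw [Multiset.map_map, ← Multiset.sum_map_mul_left]
    refine congrArg _ (Multiset.map_congr rfl fun v _ => ?_)
    show (c * v) ^ 2 = c ^ 2 * v ^ 2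
    ring
  have h4 : ∀ A B : Multiset ℕ, sq (A + B) = sq A + sq B := by
    intro A B
    unfold sq
    rw [Multiset.map_add, Multiset.sum_add]
  have h5 : ∀ A : Multiset ℕ, A.map (fun v => y * (T / v)) =
      (A.map (T / ·)).map (fun v => y * v) := by
    intro A
    rw [Multiset.map_map]
    rfl
  simp only [S, S', h4, h5, h3] at h2
  exact h2

theorem sq_ne_five_sq (x z : ℕ) (hx : 0 < x) : x ^ 2 ≠ 5 * z ^ 2 := by
  intro h
  have h5 : Nat.Prime 5 := by norm_num
  have hz : 0 < z := by
    rcases Nat.eq_zero_or_pos z with h0 | h0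
    · subst h0
      have := pow_pos hx 2
      omega
    · exact h0
  have h1 := congrArg (fun t => t.factorization 5) h
  simp only [Nat.factorization_pow] at h1
  rw [Nat.factorization_mul (by norm_num) (by positivity), Nat.factorization_pow] at h1
  simp [h5.factorization_self] at h1
  omega

/-- All large numbers are positive combinations of two coprime numbers. -/
theorem exists_pos_comb (A B n : ℕ) (h : Nat.Coprime A B) (hn : A * B + A + B ≤ n) :
    ∃ x y, 0 < x ∧ 0 < y ∧ x * A + y * B = n := by
  obtain ⟨u, v, huv⟩ := Nat.exists_add_mul_eq_of_gcd_dvd_of_mul_pred_le A B (n - A - B)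
    (by simp [h.gcd_eq_one]) (by
      have : A.pred * B.pred ≤ A * B := Nat.mul_le_mul (Nat.pred_le A) (Nat.pred_le B)
      omega)
  refine ⟨u + 1, v + 1, by omega, by omega, ?_⟩
  have h1 : (u + 1) * A + (v + 1) * B = u * A + v * B + A + B := by ring
  omega

/-- The general construction: common elements `C` may be added. -/
theorem construct (C : Multiset ℕ) (N : ℕ) (hN : 0 < N) (hC : ∀ v ∈ C, v ∣ 1680 * N)
    (hcop : Nat.Coprime (119 + C.sum) (267 * N + (C.map (1680 * N / ·)).sum)) :
    ∃ M, ∀ n, M ≤ n → ¬ PreInjectiveOn (4 + C.card) n := by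
  set A := 119 + C.sum with hA
  set B := 267 * N + (C.map (1680 * N / ·)).sum with hB
  refine ⟨A * B + A + B, fun n hn => ?_⟩
  obtain ⟨x, y, hx, hy, hxy⟩ := exists_pos_comb A B n hcop hn
  have e1 : ∀ v w, v * w = 1680 → 1680 * N / v = w * N := by
    intro v w h
    have hv : 0 < v := by
      rcases Nat.eq_zero_or_pos v with h0 | h0
      · subst h0; omega
      · exact h0
    rw [← h, mul_assoc, Nat.mul_div_cancel_left _ hv]
  have f15 := e1 15 112 (by norm_num)
  have f28 := e1 28 60 (by norm_num)
  have f48 := e1 48 35 (by norm_num)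
  have f16 := e1 16 105 (by norm_num)
  have f21 := e1 21 80 (by norm_num)
  have f40 := e1 40 42 (by norm_num)
  have f42 := e1 42 40 (by norm_num)
  have hd : ∀ v w, v * w = 1680 → v ∣ 1680 * N := fun v w h =>
    Dvd.dvd.mul_right ⟨w, h.symm⟩ N
  refine collision (4 + C.card) (1680 * N) x y (({15, 28, 28, 48} : Multiset ℕ) + C)
    (({16, 21, 40, 42} : Multiset ℕ) + C) ?_ ?_ (by positivity) hx hy (by omega) ?_ ?_ ?_ ?_ ?_
    ?_ n ?_
  · simp
    omega
  · simp
    omega
  · intro v hv
    rcases Multiset.mem_add.mp hv with h | h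
    · simp only [Multiset.insert_eq_cons, Multiset.mem_cons, Multiset.mem_singleton] at h
      rcases h with rfl | rfl | rfl | rfl
      · exact hd 15 112 (by norm_num)
      · exact hd 28 60 (by norm_num)
      · exact hd 28 60 (by norm_num)
      · exact hd 48 35 (by norm_num)
    · exact hC v h
  · intro v hv
    rcases Multiset.mem_add.mp hv with h | h
    · simp only [Multiset.insert_eq_cons, Multiset.mem_cons, Multiset.mem_singleton] at h
      rcases h with rfl | rfl | rfl | rfl
      · exact hd 16 105 (by norm_num)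
      · exact hd 21 80 (by norm_num)
      · exact hd 40 42 (by norm_num)
      · exact hd 42 40 (by norm_num)
    · exact hC v h
  · simp
    ring
  · simp
    ring
  · simp only [Multiset.insert_eq_cons, Multiset.map_add, Multiset.map_cons,
      Multiset.map_singleton, Multiset.sum_add, Multiset.sum_cons, Multiset.sum_singleton, f15,
      f28, f48, f16, f21, f40, f42]
    ring
  · unfold sq
    simp only [Multiset.insert_eq_cons, Multiset.map_add, Multiset.map_cons,
      Multiset.map_singleton, Multiset.sum_add, Multiset.sum_cons, Multiset.sum_singleton, f15,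
      f28, f48, f16, f21, f40, f42]
    intro h
    apply sq_ne_five_sq x (y * N) hx
    generalize (Multiset.map (fun v => v ^ 2) C).sum = s at h
    generalize (Multiset.map (fun v => v ^ 2) (Multiset.map (1680 * N / ·) C)).sum = t at h
    have h36 : 36 * x ^ 2 = 36 * (5 * (y * N) ^ 2) := by
      zify at h ⊢
      linarith
    omega
  · rw [← hxy, hA, hB]
    simp only [Multiset.insert_eq_cons, Multiset.map_add, Multiset.map_cons,
      Multiset.map_singleton, Multiset.sum_add, Multiset.sum_cons, Multiset.sum_singleton, f15,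
      f28, f48]
    ring

theorem main (k : ℕ) (hk : 4 ≤ k) : ∃ M, ∀ n, M ≤ n → ¬ PreInjectiveOn k n := by
  obtain ⟨m, rfl⟩ := Nat.exists_eq_add_of_le hk
  rcases Nat.eq_zero_or_pos m with h0 | h0
  · subst h0
    have := construct 0 1 (by norm_num) (by simp) (by norm_num)
    simpa using this
  · obtain ⟨j, rfl⟩ := Nat.exists_eq_add_of_le' h0
    -- `j` ones and one element `N`
    obtain ⟨N, hN⟩ : ∃ N : ℕ, N + 1679 + (119 + j) = (119 + j) * (267 + 1680 * j) := by
      refine ⟨(119 + j) * (267 + 1680 * j) - 1679 - (119 + j), ?_⟩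
      have : 1679 + (119 + j) ≤ (119 + j) * (267 + 1680 * j) := by nlinarith
      omega
    have hN0 : 0 < N := by
      have : 1679 + (119 + j) < (119 + j) * (267 + 1680 * j) := by nlinarith
      omega
    have := construct (N ::ₘ Multiset.replicate j 1) N hN0 (by
      intro v hv
      rcases Multiset.mem_cons.mp hv with h | h
      · subst h
        exact Dvd.intro_left 1680 rfl
      · rw [Multiset.eq_of_mem_replicate h]
        exact one_dvd _) (by
      rw [Multiset.map_cons, Multiset.sum_cons, Multiset.sum_cons, Multiset.map_replicate,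
        Multiset.sum_replicate, Multiset.sum_replicate]
      rw [Nat.mul_div_cancel _ hN0, Nat.div_one, smul_eq_mul, smul_eq_mul]
      rw [← Nat.isCoprime_iff_coprime]
      refine ⟨1 - (267 + 1680 * (j : ℤ)), 1, ?_⟩
      have hN' : (N : ℤ) + 1679 + (119 + j) = (119 + j) * (267 + 1680 * j) := by
        exact_mod_cast hN
      push_cast
      linear_combination hN')
    rw [Multiset.card_cons, Multiset.card_replicate] at this
    exact this

end Pool.Agent.Lib.MP_b67aea_co
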